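import Pool.Agent.H336.Kak.Sharp

/-!
# The arithmetic Kakeya conjecture for sets with a non-trivial componentwise operation

Let `S` be a finite set of slopes. For `r ∈ S` let `π_r(x, y) = x + r y`, and `π_∞(x, y) = y`.

A *weak near-unanimity operation* on a set `X` is a map `w : X^m → X`, `m ≥ 2`, with
`w(x,...,x) = x` and `w(y,x,...,x) = w(x,y,x,...,x) = ... = w(x,...,x,y)`
(`Pool.Agent.H336.Gumm.IsWnu`). For example: semilattice operations and all commutative idempotent
operations (`m = 2`), majority operations (`m = 3`), near-unanimity operations.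

*Gumm operations* on `X` are ternary operations `q_0, ..., q_n, p` such that
`q_0(x,y,z) = x`, `q_i(x,y,x) = x`, `q_i(x,y,y) = q_{i+1}(x,y,y)` for even `i`,
`q_i(x,x,y) = q_{i+1}(x,x,y)` for odd `i`, `q_n(x,y,y) = p(x,y,y)`, `p(x,x,y) = y`
(`Pool.Agent.H336.Gumm.IsGumm`). For example: Mal'tsev operations (`n = 0`; groups, quasigroups).

A finite set `A ⊂ ℤ × ℤ` is *closed* (for `S`) if there are **some** weak near-unanimity operations on
`ℚ` (of the same arity), one for each of the projections `π_r`, `r ∈ S ∪ {∞}`, or some Gumm operations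
(with the same `n`), such that `A` is closed under their componentwise application: for all arguments
in `A` there is `d ∈ A` such that every `π_r(d)` is the value of the `r`-th operation at the `π_r` of the
arguments. The operations are arbitrary functions, unrelated to each other and to the addition of
rational numbers. (By a theorem of Maróti and McKenzie a finite idempotent algebra has a weak
near-unanimity term as soon as it satisfies any identities which are not satisfied by projections, so
the class contains every `A` which is closed under idempotent componentwise operations with such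
identities, in particular the class with the Gumm operations; this remark is not used.)

1. `|A|^{|S|} ≤ ∏_{r ∈ S ∪ {∞}} |π_r(A)|` for all closed `A`, `|S| ≥ 1`.
2. If `ε > 0` and `|S| ≥ 2/ε`, then `|π_{-1}(A)| ≤ (max_{r ∈ S ∪ {∞}} |π_r(A)|)^{1+ε}` for all `A`
   which are unions of at most `|π_{-1}(A)|^{ε/(2(1+ε))}` closed sets. Here `S` may be any set of
   slopes with this number of elements.
3. For all `S` and `N ≥ 1` there is an `A`, closed in both senses, with `|A| = N^{|S|+1}`,
   `|π_r(A)| = N^{|S|}` for all `r ∈ S ∪ {∞}`, and `|π_{-1}(A)| = N^{|S|+1}` if `-1 ∉ S`. So (1) is an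
   equality for these sets, and `1 + 1/|S|` is the best exponent in
   `|π_{-1}(A)| ≤ (max_{r ∈ S ∪ {∞}} |π_r(A)|)^c` for the closed sets, for every non-empty `S` which
   does not contain `-1`.

In the starting file `MajorityClosed` (1) and a form of (2) are proved for majority operations.

Idea of the proof. The kernels `θ_r` of the projections are congruences, and `θ_r ∧ θ_s = 0` for
`r ≠ s`. Let `ψ_r = ⋁_{s≠r} θ_s`, `κ_r = θ_r ∧ ψ_r`, `u = ⋀ ψ_r`; we have to show `u = 0`, because then
`A` is embedded in the product of the `A/ψ_r` and the inequality of Loomis and Whitney can be applied.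

*Gumm operations.* The congruences are modular, so `u = ⋁_{s≠r} κ_s` for each `r`. The commutator
argument shows `p(x,y,y) = x` for `x κ_r y`; so `κ_r`-steps and `κ_s`-steps permute, and they form
parallelograms of the plane. At a point `v` of a class of `⋁_{s≠r} κ_s` where `π_r` is maximal every
`κ_r`-step is a sum of `κ_s`-steps from `v`, `s ≠ r`, all of which go down; so there is no `κ_r`-step at
`v`, hence none anywhere. Therefore `κ_r = 0` for all `r` and `u = 0`.

*Weak near-unanimity operations.* Let `A` be a smallest counterexample, and let `x ≠ y` be related by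
`κ_r` for some `r`, or by `u` if all `κ_r` are `0`. Put `c ∘ z = w(z,c,...,c)`, and let `k` be such that
`E_c = (c ∘)^k` is idempotent for all `c`. The term condition shows `E_c(x) ≠ E_c(y)` for all `c`
connected with `x`. The set `E_c(A)` is closed under `E_c w`, so it would be a smaller counterexample
unless `E_c = id`. In the same way all of `A` is connected with `x`. Therefore
`(y ∘)^{k-1} w(x,z,y,...,y)` is a Mal'tsev operation of `A`, and the first case applies.
-/

set_option autoImplicit false

namespace Pool.Agent.Results.MP_169869_co.GummClosed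

open Finset Pool.Agent.H336.Kak

/-- `A` is closed under the componentwise application of some weak near-unanimity operations or of
some Gumm operations on its projections with slopes in `S ∪ {∞}`. -/
def Closed (S : Finset ℚ) (A : Finset (ℤ × ℤ)) : Prop := WnuClosed S A ∨ GummClosed S A

theorem bound (S : Finset ℚ) (hS : 1 ≤ #S) (A : Finset (ℤ × ℤ)) (hA : Closed S A) :
    #A ^ #S ≤ ∏ r ∈ insertNone S, #(proj r A) :=
  hA.elim (bound_wnu S hS A) (bound_one S hS A)

/-- **Theorem.** See the header. -/
theorem result :
    (∀ S : Finset ℚ, 1 ≤ #S → ∀ A : Finset (ℤ × ℤ), Closed S A →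
      #A ^ #S ≤ ∏ r ∈ insertNone S, #(proj r A)) ∧
    (∀ ε : ℝ, 0 < ε → ∀ S : Finset ℚ, 2 / ε ≤ #S →
      ∀ (A : Finset (ℤ × ℤ)) (L : ℕ) (B : Fin L → Finset (ℤ × ℤ)), (∀ i, B i ⊆ A) →
        (∀ a ∈ A, ∃ i, a ∈ B i) → (∀ i, Closed S (B i)) →
        (L : ℝ) ≤ (#(proj (some (-1)) A) : ℝ) ^ (ε / (2 * (1 + ε))) →
        (#(proj (some (-1)) A) : ℝ) ≤ (big S A : ℝ) ^ (1 + ε)) ∧
    (∀ (S : Finset ℚ) (N : ℕ), 1 ≤ N → ∃ A : Finset (ℤ × ℤ), (GummClosed S A ∧ WnuClosed S A) ∧
      #A = N ^ (#S + 1) ∧ (∀ r ∈ insertNone S, #(proj r A) = N ^ #S) ∧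
      (-1 ∉ S → #(proj (some (-1)) A) = N ^ (#S + 1))) := by
  refine ⟨bound, fun ε hε S hS A L B hBA hcov hB hL => ?_, sharp⟩
  refine union_gen ε hε S hS A L B hBA hcov (fun i => bound S ?_ (B i) (hB i)) hL
  have h1 : (0 : ℝ) < #S := lt_of_lt_of_le (by positivity) hS
  exact_mod_cast h1

end Pool.Agent.Results.MP_169869_co.GummClosed
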