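import Pool.Agent.H989.Slopes2

/-!
# Additively structured sets of slopes in the arithmetic Kakeya conjecture

Let `π_r(A) = {x + r y : (x, y) ∈ A}`, `π_∞(A) = {y : (x, y) ∈ A}`, and let `big S A` be the largest of
the numbers `|π_∞(A)|`, `|π_r(A)|`, `r ∈ S`. The conjecture says that for every `ε > 0` there is a finite
set `S` of slopes `r ≠ -1` with `|π₋₁(A)| ≤ (big S A) ^ (1 + ε)` for all finite `A ⊂ ℤ × ℤ`.

`Fails S κ` says that this inequality with the exponent `κ` is false even up to a constant: for every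
real `M` there is a finite `A ⊂ ℤ × ℤ` with `|π₋₁(A)| > M (big S A) ^ κ`.

For arbitrary sets of slopes there are the lower bounds `1 + 1 / |S|` (in the starting files) and
`1 + log log |S| / (32 |S|)` (in the hand-in `SuperlinearSlopes`) for the exponent. For additively
structured sets of slopes of any height we show much larger lower bounds:

1. If `|B + S| ≤ K |B|` for some finite set `B` with at least two elements, then
   `Fails S (1 + 1 / (4 (K + 1) log ((K + 1) |B|)))`. In particular, with `B = S`: if `|S + S| ≤ K |S|`,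
   then the exponent `1 + ε` can only be obtained with `(K + 1) log ((K + 1) |S|) > 1 / (4 ε)`. So for
   bounded doubling the number of slopes must be exponential in `1 / ε`, and a set of at most
   `(1 / ε) ^ C` slopes must have a doubling `|S + S| / |S|` of order at least `1 / (ε log (1 / ε))`.
2. The same for slopes for which a finite set `D` is almost invariant: if
   `|D ∩ (D - (r + 1))| ≥ |D| / K` for all `r ∈ S`, then `Fails S (1 + 1 / (4 K log |D|))`.
3. If the numbers `r + 1`, `r ∈ S`, are sums `∑ n_i v_i` with integers `|n_i| ≤ H` and `m` arbitrary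
   rational numbers `v_i`, then `Fails S (1 + 1 / (24 m log (5 m H)))`.

Idea of the proof. For `U ⊆ D` let `A_U` be the set of the points `(x, y)` with `x - y = d ∈ D` and
`y = 1` for `d ∈ U`, `y = 0` for `d ∉ U`. Then `|π₋₁(A_U)| = |D|`, and `π_r` takes the same value for `d`
and for `d + r + 1` if `d ∈ U`, `d + r + 1 ∈ D \ U`. This happens for a quarter of the sets `U`. So
the product of the sets `A_U` over all `U ⊆ D` has `|π₋₁| = |D| ^ N` with `N = 2 ^ |D|`, and
`|π_r| ≤ (exp (- 1 / (4 K)) |D|) ^ N` for all `r ∈ S`. For (1) take `D = B ∪ (B + S + 1)`, for (3) a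
suitable multiple of the generalized progression.
-/

set_option autoImplicit false

namespace Pool.Agent.Results.MP_169869_co.StructuredSlopes

open Pool.Agent.H989.Slopes
open scoped Pointwise

theorem result :
    -- 1. sumsets
    (∀ (K : ℕ) (S B : Finset ℚ), S.Nonempty → (-1 : ℚ) ∉ S → 2 ≤ B.card →
      (B + S).card ≤ K * B.card →
      Fails S (1 + 1 / (4 * (K + 1) * Real.log ((K + 1) * B.card)))) ∧
    -- 2. almost invariant sets
    (∀ K : ℕ, 2 ≤ K → ∀ S : Finset ℚ, (-1 : ℚ) ∉ S → ∀ D : Finset ℚ, 3 ≤ D.card →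
      (∀ r ∈ S, D.card ≤ K * (D.filter (fun d => d + (r + 1) ∈ D)).card) →
      Fails S (1 + 1 / (4 * K * Real.log D.card))) ∧
    -- 3. generalized arithmetic progressions
    (∀ m H : ℕ, 1 ≤ m → 1 ≤ H → ∀ (v : Fin m → ℚ) (S : Finset ℚ), S.Nonempty → (-1 : ℚ) ∉ S →
      (∀ r ∈ S, ∃ n : Fin m → ℤ, (∀ i, |n i| ≤ H) ∧ r + 1 = ∑ i, (n i : ℚ) * v i) →
      Fails S (1 + 1 / (24 * m * Real.log (5 * m * H)))) :=
  ⟨fun K S B h1 h2 h3 h4 => sumset_bound K S B h1 h2 h3 h4,
    fun K hK S hS D hD h => invariant_boundK K hK S hS D hD h,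
    fun _ _ hm hH v S h1 h2 h3 => gap_bound hm hH v S h1 h2 h3⟩

end Pool.Agent.Results.MP_169869_co.StructuredSlopes
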