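import Pool.Agent.H989.Slopes

/-!
# The arithmetic Kakeya conjecture needs superlinearly many slopes

Let `π_r(A) = {x + r y : (x, y) ∈ A}`, `π_∞(A) = {y : (x, y) ∈ A}`, and let `big S A` be the largest of
the numbers `|π_∞(A)|`, `|π_r(A)|`, `r ∈ S`. The conjecture says that for every `ε > 0` there is a finite
set `S` of slopes `r ≠ -1` with `|π₋₁(A)| ≤ (big S A) ^ (1 + ε)` for all finite `A ⊂ ℤ × ℤ`.

`Fails S κ` says that this inequality with the exponent `κ` is false even up to a constant: for every
real `M` there is a finite `A ⊂ ℤ × ℤ` with `|π₋₁(A)| > M (big S A) ^ κ`.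

The grids `∑ a_r w_r`, with `w_r` in the kernel of `π_r`, show that `|S|` slopes (and `∞`) never give an
exponent below `1 + 1 / |S|`, so that at least `1 / ε` slopes are needed. We show that this is not the
truth, for ANY choice of the slopes.

1. For every `S` of at least `2 ^ 2 ^ 10` slopes the exponent is larger than
   `1 + log log |S| / (32 |S|)`.
2. For `0 < ε ≤ exp (- exp 33)` at least `log log (1 / ε) / (32 ε)` slopes are needed for the exponent
   `1 + ε`.

Idea of the proof. For slopes `r_0, …, r_n` let `β_r = X ^ 2 + r X`, let `Q` be the set of the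
polynomials `∑_J a_J ∏_{i ∈ J} β_{r_i}`, `a_J ∈ {0, 1, 2, 3}`, and let `A` be the set of the points
`(u + X ^ 2 v, X v)`, `u, v ∈ Q`, so that `π_r(A) = Q + β_r Q` (at the end `X` is replaced by a rational
number). If `r` is one of the `r_i`, then half of the products occur twice in `Q + β_r Q`, and
`|π_r(A)| ≤ |Q| ^ (2 - 1 / 4)`, for all the `n + 1` slopes at the same time. From any set of
`16 ^ (4 · 2 ^ n) + n + 1` slopes and any `r_0` in it one can choose `r_1, …, r_n` in it, one after the
other, so that `|π₋₁(A)| = |Q| ^ 2`. Hence `S` can be covered, up to a small remainder, by disjoint groups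
of `n + 1` slopes with this property, where `n` is about `log log |S|`, and the product of the sets `A`
of all the groups has the property needed for (1). For (2) one adds arbitrary further slopes to `S`.
-/

set_option autoImplicit false

namespace Pool.Agent.Results.MP_169869_co.SuperlinearSlopes

open Pool.Agent.H989.Slopes

theorem result :
    -- 1. a lower bound for the exponent
    (∀ S : Finset ℚ, (-1 : ℚ) ∉ S → 2 ^ 2 ^ 10 ≤ S.card →
      Fails S (1 + Real.log (Real.log S.card) / (32 * S.card))) ∧
    -- 2. a lower bound for the number of slopes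
    (∀ ε : ℝ, 0 < ε → ε ≤ Real.exp (-Real.exp 33) → ∀ S : Finset ℚ, (-1 : ℚ) ∉ S →
      (S.card : ℝ) ≤ Real.log (Real.log (1 / ε)) / (32 * ε) → Fails S (1 + ε)) :=
  ⟨loglog_bound, number_of_slopes⟩

end Pool.Agent.Results.MP_169869_co.SuperlinearSlopes
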